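import Pool.Agent.X84.Kill

set_option autoImplicit false
open Set Filter Topology MeasureTheory Finset
open Pool.Agent.X84.Kill

namespace Pool.Agent.Results.MP_28fd2b_an.DensityBelow

/-- The upper Banach density `lim_{N → ∞} sup_{m ≥ 0} |S ∩ {m+1, …, m+N}| / N` (the limit exists; it
is written here as an upper limit). -/
noncomputable def upperBanachDensity (S : Set ℕ) : ℝ :=
  limsup (fun N : ℕ => ⨆ m : ℕ, (((S ∩ Set.Icc (m + 1) (m + N)).ncard : ℝ) / (N : ℝ))) atTop

open scoped Classical in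
lemma ncard_eq_cnt (S : Set ℕ) (m N : ℕ) : (S ∩ Set.Icc (m + 1) (m + N)).ncard = cnt S (m + 1) N := by
  unfold cnt
  have h : (S ∩ Set.Icc (m + 1) (m + N)) =
      ↑(((range N).filter fun i => m + 1 + i ∈ S).image fun i => m + 1 + i) := by
    ext s
    simp only [Set.mem_inter_iff, Set.mem_Icc, coe_image, Finset.coe_filter, Finset.mem_range,
      Set.mem_image]
    constructor
    · rintro ⟨h1, h2, h3⟩
      refine ⟨s - (m + 1), ⟨by omega, ?_⟩, by omega⟩
      have : m + 1 + (s - (m + 1)) = s := by omega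
      rw [this]; exact h1
    · rintro ⟨i, ⟨h1, h2⟩, rfl⟩
      exact ⟨h2, by omega, by omega⟩
  rw [h, Set.ncard_coe_finset, Finset.card_image_of_injective _ (add_right_injective (m + 1))]

open scoped Classical in
lemma cnt_le (S : Set ℕ) (t n : ℕ) : cnt S t n ≤ n := by
  unfold cnt
  exact (Finset.card_filter_le _ _).trans (by simp)

open scoped Classical in
lemma cnt_add (S : Set ℕ) (t a b : ℕ) : cnt S t (a + b) = cnt S t a + cnt S (t + a) b := by
  unfold cnt
  simp only [Finset.card_filter]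
  rw [Finset.sum_range_add]
  simp only [add_assoc]

/-- dense aligned windows -/
lemma exists_window {S : Set ℕ} {κ : ℝ} (hd : κ ≤ upperBanachDensity S) (M Q L : ℕ)
    (hQ : 0 < Q) {ε : ℝ} (hε : 0 < ε) (hεκ : ε < κ) :
    ∃ A B : ℕ, M ≤ A ∧ L ≤ B - A ∧ A < B ∧ Q ∣ A ∧ Q ∣ B ∧
      (κ - ε) * ((B - A : ℕ) : ℝ) ≤ cnt S A (B - A) := by
  have hfreq : ∃ᶠ N : ℕ in atTop, κ - ε / 2 <
      ⨆ m : ℕ, (((S ∩ Set.Icc (m + 1) (m + N)).ncard : ℝ) / (N : ℝ)) := by
    apply frequently_lt_of_lt_limsup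
    · refine isCoboundedUnder_le_of_le atTop (x := 0) fun N => ?_
      exact Real.iSup_nonneg fun m => by positivity
    · unfold upperBanachDensity at hd
      linarith
  set N₀ : ℕ := ⌈2 * ((M : ℝ) + 2 * Q) / ε⌉₊ + ⌈(L : ℝ) / (κ - ε)⌉₊ + 1 with hN₀
  obtain ⟨N, hN, hNd⟩ := (hfreq.and_eventually (eventually_ge_atTop N₀)).exists
  obtain ⟨m, hm⟩ := exists_lt_of_lt_ciSup hN
  have hN0 : 0 < N := by omega
  have hN' : (0 : ℝ) < N := by exact_mod_cast hN0
  rw [ncard_eq_cnt, lt_div_iff₀ hN'] at hm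
  have h1 : 2 * ((M : ℝ) + 2 * Q) / ε ≤ N := by
    refine (Nat.le_ceil _).trans ?_
    exact_mod_cast (by omega : ⌈2 * ((M : ℝ) + 2 * Q) / ε⌉₊ ≤ N)
  have h2 : (L : ℝ) / (κ - ε) ≤ N := by
    refine (Nat.le_ceil _).trans ?_
    exact_mod_cast (by omega : ⌈(L : ℝ) / (κ - ε)⌉₊ ≤ N)
  rw [div_le_iff₀ hε] at h1
  rw [div_le_iff₀ (by linarith)] at h2
  set p := max (m + 1) M with hp
  set A := (p / Q + 1) * Q with hA
  set q := m + 1 + N with hq
  set B := (q / Q) * Q with hB
  have hpA : p < A := by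
    have := Nat.lt_div_mul_add (a := p) hQ
    rw [hA, Nat.succ_mul]; exact this
  have hAp : A ≤ p + Q := by
    have := Nat.div_mul_le_self p Q
    rw [hA, Nat.succ_mul]; omega
  have hBq : B ≤ q := Nat.div_mul_le_self q Q
  have hqB : q < B + Q := Nat.lt_div_mul_add (a := q) hQ
  have hpm : m + 1 ≤ p := le_max_left _ _
  have hpM : M ≤ p := le_max_right _ _
  have hpsum : p ≤ m + 1 + M := max_le (by omega) (by omega)
  have hcN : (cnt S (m + 1) N : ℝ) ≤ N := by exact_mod_cast cnt_le S (m + 1) N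
  have hε2 : ε < 2 := by
    have : (κ - ε / 2) * N < 1 * N := by linarith
    have := lt_of_mul_lt_mul_right this hN'.le
    linarith
  have hMQ : M + 2 * Q < N := by
    have : (M : ℝ) + 2 * Q < N := by nlinarith
    exact_mod_cast this
  have hAB : A ≤ B := by omega
  have hsplit : cnt S (m + 1) N = cnt S (m + 1) (A - (m + 1)) + (cnt S A (B - A) + cnt S B (q - B)) := by
    have e1 : N = (A - (m + 1)) + ((B - A) + (q - B)) := by omega
    rw [e1, cnt_add, cnt_add]
    have e2 : m + 1 + (A - (m + 1)) = A := by omega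
    have e3 : A + (B - A) = B := by omega
    rw [e2, e3]
  have hle : cnt S (m + 1) N ≤ (M + Q) + (cnt S A (B - A) + Q) := by
    rw [hsplit]
    have h3 := cnt_le S (m + 1) (A - (m + 1))
    have h4 := cnt_le S B (q - B)
    omega
  have hle' : (cnt S (m + 1) N : ℝ) ≤ ((M : ℝ) + Q) + (cnt S A (B - A) + Q) := by exact_mod_cast hle
  have hcnt : (κ - ε) * N ≤ cnt S A (B - A) := by nlinarith
  have hBA : ((B - A : ℕ) : ℝ) ≤ N := by exact_mod_cast (by omega : B - A ≤ N)
  have hcBA : (cnt S A (B - A) : ℝ) ≤ ((B - A : ℕ) : ℝ) := by exact_mod_cast cnt_le S A (B - A)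
  refine ⟨A, B, by omega, ?_, ?_, Dvd.intro_left _ rfl, Dvd.intro_left _ rfl, ?_⟩
  · have : (L : ℝ) ≤ ((B - A : ℕ) : ℝ) := by nlinarith
    exact_mod_cast this
  · have h5 : (0 : ℝ) < ((B - A : ℕ) : ℝ) := by nlinarith
    have : 0 < B - A := by exact_mod_cast h5
    omega
  · exact (mul_le_mul_of_nonneg_left hBA (by linarith)).trans hcnt

/-- the bump function around `0` -/
noncomputable def bump (z : ℂ) : ℝ := max 0 (1 - 2 * ‖z‖)

lemma bump_nonneg (z : ℂ) : 0 ≤ bump z := le_max_left _ _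

lemma bump_le_one (z : ℂ) : bump z ≤ 1 := by
  unfold bump
  apply max_le zero_le_one
  have := norm_nonneg z
  linarith

lemma bump_zero : bump 0 = 1 := by simp [bump]

lemma bump_continuous : Continuous bump := by
  unfold bump; fun_prop

lemma bump_sum_le {k : ℕ} (z : ℂ) : ∑ j : Fin k, bump (z - ((j : ℕ) : ℂ)) ≤ 1 := by
  by_cases h : ∃ j : Fin k, bump (z - ((j : ℕ) : ℂ)) ≠ 0
  · obtain ⟨j, hj⟩ := h
    have hj' : ‖z - ((j : ℕ) : ℂ)‖ < 1 / 2 := by
      by_contra hcon
      push Not at hcon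
      apply hj
      unfold bump
      apply max_eq_left
      linarith
    rw [Finset.sum_eq_single j]
    · exact bump_le_one _
    · intro i _ hij
      unfold bump
      apply max_eq_left
      have h1 : (1 : ℝ) ≤ ‖((i : ℕ) : ℂ) - ((j : ℕ) : ℂ)‖ := by
        have h2 : ((i : ℕ) : ℂ) - ((j : ℕ) : ℂ) = (((i : ℕ) : ℤ) - ((j : ℕ) : ℤ) : ℤ) := by
          push_cast; rfl
        rw [h2, Complex.norm_intCast]
        have h3 : (1 : ℤ) ≤ |((i : ℕ) : ℤ) - ((j : ℕ) : ℤ)| := by
          apply Int.one_le_abs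
          intro h0
          apply hij
          apply Fin.ext
          omega
        exact_mod_cast h3
      have h2 : ‖((i : ℕ) : ℂ) - ((j : ℕ) : ℂ)‖ ≤ ‖z - ((i : ℕ) : ℂ)‖ + ‖z - ((j : ℕ) : ℂ)‖ := by
        have : ((i : ℕ) : ℂ) - ((j : ℕ) : ℂ) = (z - ((j : ℕ) : ℂ)) - (z - ((i : ℕ) : ℂ)) := by ring
        rw [this]
        refine (norm_sub_le _ _).trans (le_of_eq (add_comm _ _))
      linarith
    · intro h; exact absurd (Finset.mem_univ j) h
  · push Not at h
    rw [Finset.sum_eq_zero fun j _ => h j]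
    exact zero_le_one

open scoped Classical in
/-- **Full answer to Q1 for all `k ≥ 2`: no.** Every weak interpolation set of order `k ≥ 2` for
uniquely ergodic systems has upper Banach density strictly below `1/k`. -/
theorem result (k : ℕ) (hk : 2 ≤ k) (S : Set ℕ) (hS : IsWeakInterpolationSet k S) :
    upperBanachDensity S < 1 / k := by
  by_contra hcon
  push Not at hcon
  have hk0 : 0 < k := by omega
  have hk' : (0 : ℝ) < k := by exact_mod_cast hk0
  have hk2 : (2 : ℝ) ≤ k := by exact_mod_cast hk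
  -- windows
  have hstep : ∀ l M : ℕ, ∃ p : ℕ × ℕ, M ≤ p.1 ∧ l + 1 ≤ p.2 - p.1 ∧ p.1 < p.2 ∧
      Nat.factorial l ∣ p.1 ∧ Nat.factorial l ∣ p.2 ∧
      (1 / k - 1 / (k * (l + 2))) * ((p.2 - p.1 : ℕ) : ℝ) ≤ cnt S p.1 (p.2 - p.1) := by
    intro l M
    have hl2 : (0 : ℝ) < (l : ℝ) + 2 := by positivity
    obtain ⟨A, B, h1, h2, h3, h4, h5, h6⟩ := exists_window hcon M (Nat.factorial l) (l + 1)
      (Nat.factorial_pos l) (ε := 1 / (k * (l + 2))) (by positivity) (by
        apply one_div_lt_one_div_of_lt hk'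
        have : (0 : ℝ) ≤ l := Nat.cast_nonneg l
        nlinarith)
    exact ⟨(A, B), h1, h2, h3, h4, h5, h6⟩
  choose nxt s1 s2 s3 s4 s5 s6 using hstep
  obtain ⟨I, hI0, hIs⟩ : ∃ I : ℕ → ℕ × ℕ, I 0 = nxt 0 0 ∧ ∀ l, I (l + 1) = nxt (l + 1) (I l).2 :=
    ⟨fun l => Nat.rec (nxt 0 0) (fun l p => nxt (l + 1) p.2) l, rfl, fun _ => rfl⟩
  have hIex : ∀ l, ∃ M, I l = nxt l M := by
    intro l
    cases l with
    | zero => exact ⟨0, hI0⟩
    | succ l => exact ⟨_, hIs l⟩
  set A : ℕ → ℕ := fun l => (I l).1 with hAdef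
  set B : ℕ → ℕ := fun l => (I l).2 with hBdef
  have hAB : ∀ l, A l < B l := fun l => by
    obtain ⟨M, hM⟩ := hIex l; simp only [hAdef, hBdef, hM]; exact s3 _ _
  have hlen : ∀ l, l + 1 ≤ B l - A l := fun l => by
    obtain ⟨M, hM⟩ := hIex l; simp only [hAdef, hBdef, hM]; exact s2 _ _
  have hdA : ∀ l, Nat.factorial l ∣ A l := fun l => by
    obtain ⟨M, hM⟩ := hIex l; simp only [hAdef, hM]; exact s4 _ _
  have hdB : ∀ l, Nat.factorial l ∣ B l := fun l => by
    obtain ⟨M, hM⟩ := hIex l; simp only [hBdef, hM]; exact s5 _ _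
  have hdens : ∀ l : ℕ, (1 / k - 1 / (k * ((l : ℝ) + 2))) * ((B l - A l : ℕ) : ℝ) ≤ cnt S (A l) (B l - A l) :=
    fun l => by
      obtain ⟨M, hM⟩ := hIex l; simp only [hAdef, hBdef, hM]; exact s6 _ _
  have hBA : ∀ l, B l ≤ A (l + 1) := fun l => by
    simp only [hAdef, hBdef, hIs]; exact s1 _ _
  have hBmono : StrictMono B := strictMono_nat_of_lt_succ fun l => (hBA l).trans_lt (hAB (l + 1))
  have hex : ∀ j : ℕ, ∃ l, j < B l := fun j =>
    ⟨j + 1, lt_of_lt_of_le (Nat.lt_succ_self j) (hBmono.id_le (j + 1))⟩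
  set idx : ℕ → ℕ := fun j => Nat.find (hex j) with hidx
  have hidx_eq : ∀ l j, A l ≤ j → j < B l → idx j = l := by
    intro l j h1 h2
    apply le_antisymm (Nat.find_min' (hex j) h2)
    by_contra hcon
    push Not at hcon
    have hcon' : Nat.find (hex j) < l := hcon
    obtain ⟨l', rfl⟩ : ∃ l', l = l' + 1 := ⟨l - 1, by omega⟩
    have h3 : j < B (Nat.find (hex j)) := Nat.find_spec (hex j)
    have h4 : B (Nat.find (hex j)) ≤ B l' := hBmono.monotone (by omega)
    have := hBA l'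
    omega
  -- first system
  obtain ⟨X, _, _, _, _, T, x, F, hT, ⟨μ, ⟨hμ, hμT⟩, hμu⟩, _, hF, hFf⟩ :=
    hS (fun s => ⟨idx (s : ℕ) % k, Nat.mod_lt _ hk0⟩)
  have huniq : ∀ ν : Measure X, IsProbabilityMeasure ν → MeasurePreserving T ν ν → ν = μ :=
    fun ν h1 h2 => hμu ν ⟨h1, h2⟩
  set g : Fin k → X → ℝ := fun j y => bump (F y - ((j : ℕ) : ℂ)) with hg
  have hgc : ∀ j, Continuous (g j) := fun j => bump_continuous.comp (hF.sub continuous_const)
  have hgint : ∀ j, Integrable (g j) μ := fun j => by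
    have h1 : IntegrableOn (g j) Set.univ μ := (hgc j).continuousOn.integrableOn_compact isCompact_univ
    rwa [integrableOn_univ] at h1
  -- on the windows, g (l mod k) dominates the indicator of S
  have hdom : ∀ (l : ℕ) (j : Fin k), l % k = j → ∀ i < B l - A l, A l + i ∈ S → g j (T^[A l + i] x) = 1 := by
    intro l j hlj i hi hiS
    have h1 := hFf ⟨A l + i, hiS⟩
    simp only at h1
    have h2 : idx (A l + i) = l := hidx_eq l _ (Nat.le_add_right _ _) (by omega)
    simp only [hg]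
    rw [h1, h2, hlj, sub_self, bump_zero]
  have hsumge : ∀ (l : ℕ) (j : Fin k), l % k = j →
      (cnt S (A l) (B l - A l) : ℝ) ≤ ∑ i ∈ range (B l - A l), g j (T^[A l + i] x) := by
    intro l j hlj
    unfold cnt
    rw [Finset.card_filter]
    push_cast
    refine Finset.sum_le_sum fun i hi => ?_
    split_ifs with h
    · rw [hdom l j hlj i (Finset.mem_range.1 hi) h]
    · exact bump_nonneg _
  have hgeint : ∀ j, 1 / (k : ℝ) ≤ ∫ y, g j y ∂μ := by
    intro j
    apply le_of_forall_pos_le_add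
    intro ε hε
    obtain ⟨L, hL0, hL⟩ := Pool.Agent.X84.EmpLim.uniform_avg hT μ huniq x (hgc j) (ε := ε / 2) (by positivity)
    obtain ⟨l₀, hl₀⟩ := exists_nat_gt (2 / ε)
    set l := (l₀ + L) * k + j with hl
    have hlk : l % k = j := by
      rw [hl, Nat.add_comm, Nat.add_mul_mod_self_right, Nat.mod_eq_of_lt j.2]
    have hl1 : l₀ + L ≤ l := by
      have : l₀ + L ≤ (l₀ + L) * k := Nat.le_mul_of_pos_right _ hk0
      omega
    have hlenl := hlen l
    have h1 := hL (B l - A l) (by omega) (A l)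
    have h2 := hsumge l j hlk
    have h3 := hdens l
    have hpos : (0 : ℝ) < ((B l - A l : ℕ) : ℝ) := by exact_mod_cast (by omega : 0 < B l - A l)
    have h4 : 1 / (k : ℝ) - 1 / (k * ((l : ℝ) + 2)) ≤
        (∑ i ∈ range (B l - A l), g j (T^[A l + i] x)) / ((B l - A l : ℕ) : ℝ) := by
      rw [le_div_iff₀ hpos]; linarith
    have h5 : 1 / (k * ((l : ℝ) + 2)) ≤ ε / 2 := by
      have h6 : (l₀ : ℝ) ≤ l := by exact_mod_cast (by omega : l₀ ≤ l)
      rw [div_lt_iff₀ hε] at hl₀
      rw [div_le_iff₀ (by positivity)]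
      have h7 : (0 : ℝ) ≤ l := Nat.cast_nonneg l
      have hk1 : (1 : ℝ) ≤ k := by exact_mod_cast hk0
      have h8 : (l₀ : ℝ) * ε ≤ l * ε := mul_le_mul_of_nonneg_right h6 hε.le
      have h9 : 1 ≤ ε / 2 * ((l : ℝ) + 2) := by nlinarith
      have h10 : ε / 2 * (k * ((l : ℝ) + 2)) = k * (ε / 2 * ((l : ℝ) + 2)) := by ring
      rw [h10]
      nlinarith
    rw [abs_lt] at h1
    linarith [h1.2]
  have hsum1 : ∑ j, ∫ y, g j y ∂μ ≤ 1 := by
    rw [← integral_finsetSum _ (fun j _ => hgint j)]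
    calc ∫ y, ∑ j, g j y ∂μ ≤ ∫ _, (1 : ℝ) ∂μ := by
          apply integral_mono (integrable_finsetSum _ fun j _ => hgint j) (integrable_const _)
          intro y
          exact bump_sum_le (F y)
      _ = 1 := by simp
  set j₀ : Fin k := ⟨0, hk0⟩ with hj₀
  have hle0 : ∫ y, g j₀ y ∂μ ≤ 1 / k := by
    have h1 : ∑ j ∈ univ.erase j₀, (1 / (k : ℝ)) ≤ ∑ j ∈ univ.erase j₀, ∫ y, g j y ∂μ :=
      Finset.sum_le_sum fun j _ => hgeint j
    rw [Finset.sum_const, Finset.card_erase_of_mem (Finset.mem_univ _), Finset.card_univ,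
      Fintype.card_fin, nsmul_eq_mul, Nat.cast_sub hk0] at h1
    have h2 := Finset.add_sum_erase univ (fun j => ∫ y, g j y ∂μ) (Finset.mem_univ j₀)
    have h3 : ((k : ℝ) - (1 : ℕ)) * (1 / k) = 1 - 1 / k := by
      field_simp; push_cast; rfl
    rw [h3] at h1
    linarith
  have heq0 : ∫ y, g j₀ y ∂μ = 1 / k := le_antisymm hle0 (hgeint j₀)
  -- uniform averages
  obtain ⟨L₁, hL₁0, hL₁⟩ := Pool.Agent.X84.EmpLim.uniform_avg hT μ huniq x (hgc j₀)
    (ε := 1 / (4 * k)) (by positivity)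
  -- choose m and n
  obtain ⟨m, hm0, hm, hmL⟩ : ∃ m : ℕ, 0 < m ∧ 2 * (4 * k * m) < 2 ^ m ∧ L₁ ≤ 4 * k * m := by
    have h1 : Tendsto (fun m : ℕ => ((m : ℝ) ^ 1) * (1 / 2 : ℝ) ^ m) atTop (𝓝 0) :=
      (summable_pow_mul_geometric_of_norm_lt_one (R := ℝ) 1 (r := (1 / 2 : ℝ))
        (by rw [Real.norm_eq_abs]; norm_num)).tendsto_atTop_zero
    have h2 : (0 : ℝ) < 1 / (8 * k) := by positivity
    obtain ⟨m, hm1, hm2⟩ := ((h1.eventually (gt_mem_nhds h2)).and (eventually_gt_atTop L₁)).exists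
    refine ⟨m, by omega, ?_, ?_⟩
    · rw [pow_one, one_div_pow, lt_div_iff₀ (by positivity)] at hm1
      have h3 : (m : ℝ) * (1 / 2 ^ m) * (8 * k) * 2 ^ m < 1 * 2 ^ m :=
        mul_lt_mul_of_pos_right hm1 (by positivity)
      have h4 : (m : ℝ) * (1 / 2 ^ m) * (8 * k) * 2 ^ m = 2 * (4 * k * m) := by
        field_simp; ring
      rw [h4, one_mul] at h3
      exact_mod_cast h3
    · have : m ≤ 4 * k * m := Nat.le_mul_of_pos_left m (by omega)
      omega
  set n := 4 * k * m with hn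
  have hn0 : 0 < n := by positivity
  have hn' : (0 : ℝ) < n := by exact_mod_cast hn0
  -- sub-windows
  set lam : ℕ → ℕ := fun l => k * (l + n) with hlam
  have hlamn : ∀ l, n ≤ lam l := fun l => by
    have : l + n ≤ k * (l + n) := Nat.le_mul_of_pos_left _ hk0
    simp only [hlam]; omega
  have hlaml : ∀ l, l ≤ lam l := fun l => by
    have : l + n ≤ k * (l + n) := Nat.le_mul_of_pos_left _ hk0
    simp only [hlam]; omega
  have hnA : ∀ l, n ∣ A (lam l) := fun l =>
    (Nat.dvd_factorial hn0 (hlamn l)).trans (hdA _)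
  have hnB : ∀ l, n ∣ B (lam l) := fun l =>
    (Nat.dvd_factorial hn0 (hlamn l)).trans (hdB _)
  have hAmono : ∀ {a b : ℕ}, a < b → B a ≤ A b := by
    intro a b hab
    obtain ⟨b', rfl⟩ : ∃ b', b = b' + 1 := ⟨b - 1, by omega⟩
    exact (hBmono.monotone (by omega : a ≤ b')).trans (hBA b')
  have hAe : ∀ l, A (lam l) / n * n = A (lam l) := fun l => Nat.div_mul_cancel (hnA l)
  have hBe : ∀ l, B (lam l) / n * n = B (lam l) := fun l => Nat.div_mul_cancel (hnB l)
  have hBAe : ∀ l, (B (lam l) / n - A (lam l) / n) * n = B (lam l) - A (lam l) := fun l => by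
    rw [Nat.sub_mul, hAe, hBe]
  refine kill (k := k) (n := n) (m := m) hk hn0 hm (fun l => A (lam l) / n) (fun l => B (lam l) / n)
    ?_ ?_ ?_ ?_ hS
  · intro l
    have h1 := hAB (lam l)
    rw [← hAe l, ← hBe l] at h1
    exact lt_of_mul_lt_mul_right h1 (Nat.zero_le n)
  · intro l
    apply Nat.div_le_div_right
    apply hAmono
    simp only [hlam]
    exact Nat.mul_lt_mul_of_pos_left (by omega) hk0
  · have h1 : Tendsto (fun l => (B (lam l) - A (lam l)) / n) atTop atTop := by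
      have h2 : Tendsto (fun l : ℕ => l / n) atTop atTop := Nat.tendsto_div_const_atTop hn0.ne'
      refine tendsto_atTop_mono (fun l => ?_) h2
      apply Nat.div_le_div_right
      have := hlen (lam l)
      have := hlaml l
      omega
    refine h1.congr fun l => ?_
    rw [← hBAe l, Nat.mul_div_cancel _ hn0]
  · intro ε hε
    -- bad t's
    obtain ⟨L₂, hL₂0, hL₂⟩ := Pool.Agent.X84.EmpLim.uniform_avg hT μ huniq x (hgc j₀)
      (ε := ε / (16 * k)) (by positivity)
    obtain ⟨l₁, hl₁⟩ := exists_nat_gt ((16 / ε) + 2 * n / ε)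
    filter_upwards [eventually_ge_atTop (l₁ + L₂)] with l hl
    rw [hBAe l, hAe l]
    set a := A (lam l) with ha
    set N := B (lam l) - A (lam l) with hN
    have hlenN : lam l + 1 ≤ N := hlen (lam l)
    have hlaml' := hlaml l
    have hN1 : (l₁ : ℝ) ≤ N := by exact_mod_cast (by omega : l₁ ≤ N)
    have hNpos : (0 : ℝ) < N := by exact_mod_cast (by omega : 0 < N)
    set G : ℕ → ℝ := fun t => g j₀ (T^[t] x) with hG
    have hG0 : ∀ t, 0 ≤ G t := fun t => bump_nonneg _
    set D : ℕ → ℝ := fun t => G t - (if t ∈ S then 1 else 0) with hD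
    have hlk : lam l % k = (j₀ : ℕ) := by
      simp only [hlam, hj₀]; exact Nat.mul_mod_right k _
    have hDnn : ∀ i < N, 0 ≤ D (a + i) := by
      intro i hi
      simp only [hD]
      split_ifs with h
      · have h1 := hdom (lam l) j₀ hlk i hi h
        have h2 : G (a + i) = 1 := h1
        rw [h2]; norm_num
      · rw [sub_zero]; exact hG0 _
    have hDsum : ∑ i ∈ range N, D (a + i) ≤ ε / (8 * k) * N := by
      have h1 := hL₂ N (by omega) a
      rw [heq0, abs_lt] at h1
      have h2 := hdens (lam l)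
      have e1 : ∑ i ∈ range N, D (a + i) = ∑ i ∈ range N, G (a + i) - cnt S a N := by
        simp only [hD]
        rw [Finset.sum_sub_distrib]
        unfold cnt
        rw [Finset.card_filter]
        push_cast
        rfl
      have h3 : (∑ i ∈ range N, G (a + i)) / (N : ℝ) < 1 / k + ε / (16 * k) := by
        have := h1.2
        linarith
      rw [div_lt_iff₀ hNpos] at h3
      have h4 : (1 / (k * (((lam l : ℕ) : ℝ) + 2))) ≤ ε / (16 * k) := by
        have h5 : (l₁ : ℝ) ≤ ((lam l : ℕ) : ℝ) := by exact_mod_cast (by omega : l₁ ≤ lam l)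
        have h6 : 16 / ε < l₁ := by
          have : 0 ≤ 2 * (n : ℝ) / ε := by positivity
          linarith
        rw [div_lt_iff₀ hε] at h6
        rw [div_le_div_iff₀ (by positivity) (by positivity)]
        have h7 : (0 : ℝ) ≤ ((lam l : ℕ) : ℝ) := Nat.cast_nonneg _
        have h8 : ε * l₁ ≤ ε * (((lam l : ℕ) : ℝ) + 2) :=
          mul_le_mul_of_nonneg_left (by linarith) hε.le
        nlinarith
      have h5 : (1 / (k * (((lam l : ℕ) : ℝ) + 2))) * (N : ℝ) ≤ ε / (16 * k) * N :=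
        mul_le_mul_of_nonneg_right h4 hNpos.le
      have h6 : (1 / (k : ℝ) - 1 / (k * (((lam l : ℕ) : ℝ) + 2))) * (N : ℝ) ≤ cnt S a N := h2
      have h7 : ε / (8 * k) = ε / (16 * k) + ε / (16 * k) := by field_simp; norm_num
      rw [e1, h7]
      nlinarith
    -- Markov
    set Bad := (range N).filter fun t => cnt S (a + t) n < 2 * m with hBad
    have hsub : Bad ⊆ (Bad.filter fun t => t + n ≤ N) ∪ Finset.Ico (N - n) N := by
      intro t ht
      rw [Finset.mem_union]
      by_cases h : t + n ≤ N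
      · left; exact Finset.mem_filter.2 ⟨ht, h⟩
      · right
        rw [hBad, Finset.mem_filter, Finset.mem_range] at ht
        rw [Finset.mem_Ico]; omega
    have hc1 : (Bad.card : ℝ) ≤ ((Bad.filter fun t => t + n ≤ N).card : ℝ) + n := by
      have h1 := (Finset.card_le_card hsub).trans (Finset.card_union_le _ _)
      rw [Nat.card_Ico] at h1
      exact_mod_cast h1.trans (Nat.add_le_add_left (by omega) _)
    set Bad' := Bad.filter fun t => t + n ≤ N with hBad'
    have hlow : ∀ t ∈ Bad', (m : ℝ) ≤ ∑ i ∈ range n, D (a + (t + i)) := by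
      intro t ht
      rw [hBad', Finset.mem_filter, hBad, Finset.mem_filter] at ht
      have h1 := hL₁ n hmL (a + t)
      rw [heq0, abs_lt] at h1
      have h2 : 1 / (k : ℝ) - 1 / (4 * k) < (∑ i ∈ range n, g j₀ (T^[a + t + i] x)) / (n : ℝ) := by
        linarith [h1.1]
      rw [lt_div_iff₀ hn'] at h2
      have h3 : (1 / (k : ℝ) - 1 / (4 * k)) * n = 3 * m := by
        rw [hn]; push_cast; field_simp; ring
      rw [h3] at h2
      have h4 : (cnt S (a + t) n : ℝ) < 2 * m := by exact_mod_cast ht.1.2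
      have e1 : ∑ i ∈ range n, D (a + (t + i)) = ∑ i ∈ range n, g j₀ (T^[a + t + i] x) - cnt S (a + t) n := by
        simp only [hD, hG, ← add_assoc]
        rw [Finset.sum_sub_distrib]
        unfold cnt
        rw [Finset.card_filter]
        push_cast
        rfl
      rw [e1]; linarith
    have hup : ∑ t ∈ Bad', ∑ i ∈ range n, D (a + (t + i)) ≤ n * ∑ s ∈ range N, D (a + s) := by
      rw [Finset.sum_comm]
      have h1 : ∀ i ∈ range n, ∑ t ∈ Bad', D (a + (t + i)) ≤ ∑ s ∈ range N, D (a + s) := by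
        intro i hi
        have hin := Finset.mem_range.1 hi
        rw [← Finset.sum_image (f := fun s => D (a + s)) (g := fun t => t + i) (s := Bad')
          (fun x _ y _ h => Nat.add_right_cancel h)]
        apply Finset.sum_le_sum_of_subset_of_nonneg
        · intro s hs
          rw [Finset.mem_image] at hs
          obtain ⟨t, ht, rfl⟩ := hs
          rw [hBad', Finset.mem_filter] at ht
          rw [Finset.mem_range]; omega
        · intro s hs _
          exact hDnn s (Finset.mem_range.1 hs)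
      refine (Finset.sum_le_sum h1).trans (le_of_eq ?_)
      rw [Finset.sum_const, card_range, nsmul_eq_mul]
    have hmark : (m : ℝ) * Bad'.card ≤ n * (ε / (8 * k) * N) := by
      calc (m : ℝ) * Bad'.card = ∑ t ∈ Bad', (m : ℝ) := by
            rw [Finset.sum_const, nsmul_eq_mul, mul_comm]
        _ ≤ ∑ t ∈ Bad', ∑ i ∈ range n, D (a + (t + i)) := Finset.sum_le_sum hlow
        _ ≤ n * ∑ s ∈ range N, D (a + s) := hup
        _ ≤ _ := mul_le_mul_of_nonneg_left hDsum hn'.le
    have hm' : (0 : ℝ) < m := by exact_mod_cast hm0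
    have hB' : (Bad'.card : ℝ) ≤ ε / 2 * N := by
      have h1 : (n : ℝ) * (ε / (8 * k) * N) = m * (ε / 2 * N) := by
        rw [hn]; push_cast; field_simp; ring
      rw [h1] at hmark
      exact le_of_mul_le_mul_left hmark hm'
    have hn2 : (n : ℝ) ≤ ε / 2 * N := by
      have h1 : 2 * (n : ℝ) / ε < l₁ := by
        have : 0 ≤ 16 / ε := by positivity
        linarith
      rw [div_lt_iff₀ hε] at h1
      nlinarith
    have hfinal : (Bad.card : ℝ) ≤ ε * N := by linarith
    have hcast : ((B (lam l) / n - A (lam l) / n : ℕ) : ℝ) * n = N := by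
      rw [hN, ← hBAe l]; push_cast; rfl
    rw [hcast]
    exact hfinal

end Pool.Agent.Results.MP_28fd2b_an.DensityBelow
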